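import Pool.Agent.helper70.QSD.SpecC
import Mathlib.FieldTheory.Perfect

namespace Pool.Agent.helper70.QSD

open Pool.Agent.helper53.AU
open scoped Classical IntermediateField Polynomial
open Filter (Tendsto atTop)

noncomputable section

/-- the iterated Frobenius of `kk` -/
theorem FRB_iso (N : ℕ) : ∃ e : kk ≃+* kk, ∀ c : kk, e c = c ^ 2 ^ N := by
  have : CharP kk 2 := charP_of_injective_algebraMap (algebraMap (ZMod 2) kk).injective 2
  have : ExpChar kk 2 := ExpChar.prime Nat.prime_two
  have : PerfectRing kk 2 := PerfectField.toPerfectRing 2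
  exact ⟨iterateFrobeniusEquiv kk 2 N, fun c => iterateFrobeniusEquiv_def kk 2 N c⟩

theorem FRB_glue (e : ℕ → (kk ≃+* kk)) :
    ∃ Φ : KS ≃+* KS, ∀ x : ℕ → kk, Φ (pr x) = pr fun j => e j (x j) := by
  let F : KS → KS := Filter.Germ.map' (fun (x : ℕ → kk) (j : ℕ) => e j (x j)) (by
    intro x y h
    filter_upwards [h] with j hj
    show e j (x j) = e j (y j)
    rw [hj])
  let G : KS → KS := Filter.Germ.map' (fun (x : ℕ → kk) (j : ℕ) => (e j).symm (x j)) (by
    intro x y h
    filter_upwards [h] with j hj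
    show (e j).symm (x j) = (e j).symm (y j)
    rw [hj])
  have hF : ∀ x : ℕ → kk, F (x : KS) = ((fun j => e j (x j) : ℕ → kk) : KS) := fun x => rfl
  have hG : ∀ x : ℕ → kk, G (x : KS) = ((fun j => (e j).symm (x j) : ℕ → kk) : KS) := fun x => rfl
  refine ⟨{ toFun := F, invFun := G, left_inv := ?_, right_inv := ?_, map_mul' := ?_,
            map_add' := ?_ }, ?_⟩
  · intro x
    refine Filter.Germ.inductionOn x ?_
    intro x
    rw [hF, hG]
    simp
  · intro x
    refine Filter.Germ.inductionOn x ?_
    intro x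
    rw [hG, hF]
    simp
  · intro x y
    refine Filter.Germ.inductionOn₂ x y ?_
    intro x y
    rw [← Filter.Germ.coe_mul, hF, hF, hF, ← Filter.Germ.coe_mul]
    congr 1
    funext j
    simp
  · intro x y
    refine Filter.Germ.inductionOn₂ x y ?_
    intro x y
    rw [← Filter.Germ.coe_add, hF, hF, hF, ← Filter.Germ.coe_add]
    congr 1
    funext j
    simp
  · intro x
    exact hF x

theorem FRB : FRB_stmt := by
  constructor
  · intro N
    choose e he using FRB_iso
    obtain ⟨Φ, hΦ⟩ := FRB_glue (fun j => e (N j))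
    refine ⟨Φ, ?_⟩
    intro x
    rw [hΦ x]
    congr 1
    funext j
    exact he (N j) (x j)
  · intro N
    obtain ⟨e, he⟩ := FRB_iso N
    refine ⟨e.symm, ?_⟩
    intro c
    rw [← he, RingEquiv.apply_symm_apply]

end

end Pool.Agent.helper70.QSD
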